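import Mathlib
import Pool.Agent.H29.Ritt2

namespace Pool.Agent.Results.MP_600649_an.Sharp

open Pool.Agent.H29.Ritt in
theorem result : ∃ c : ℝ, 0 < c ∧ ∃ C₀ : ℝ, 1 ≤ C₀ ∧ ∀ C : ℝ, C₀ ≤ C →
    ∃ (X : Type) (_ : NormedAddCommGroup X) (_ : NormedSpace ℂ X) (_ : CompleteSpace X)
      (_ : FiniteDimensional ℂ X) (T : X →L[ℂ] X), spectrum ℂ T ⊆ Metric.closedBall 0 1 ∧
      (∀ z : ℂ, 1 < ‖z‖ → ‖(z - 1) • resolvent T z‖ ≤ C) ∧
      ∃ n : ℕ, c * C * Real.log (1 + C) ≤ ‖T ^ n‖ := by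
  refine ⟨1 / 12800, by norm_num, 800, by norm_num, fun C hC => ?_⟩
  have k1 := Nat.floor_le (show 0 ≤ C / 20 by linarith)
  have k2 := Nat.lt_floor_add_one (C / 20)
  have k3 : 1 ≤ ⌊C / 20⌋₊ := Nat.le_floor (by push_cast; linarith)
  obtain ⟨X, i1, i2, i3, i4, T, h1, h2, h3⟩ := conc k3 (C := C) (by linarith)
  refine ⟨X, i1, i2, i3, i4, T, h1, h2, _, le_trans ?_ h3⟩
  generalize (⌊C / 20⌋₊ : ℝ) = m at k1 k2
  have h4 : C / 40 ≤ m := by linarith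
  have h5 : Real.log (1 + C) ≤ 2 * Real.log (2 * m) := by
    have : 2 * Real.log (2 * m) = Real.log ((2 * m) ^ 2) := by
      rw [Real.log_pow]; norm_num
    rw [this]
    exact Real.log_le_log (by linarith) (by nlinarith)
  have h6 : 0 ≤ Real.log (1 + C) := Real.log_nonneg (by linarith)
  nlinarith

end Pool.Agent.Results.MP_600649_an.Sharp
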